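import Pool.Agent.MP_1dd261_pr.Core

section

/-! Two walkers on a cyclic group. -/

namespace Pool.Agent.MP_1dd261_pr

open Finset
open scoped Classical

variable {n : ℕ}

theorem sum_two (g : (Fin 2 → Fin n) → ℝ) : ∑ c, g c = ∑ a, ∑ b, g ![a, b] := by
  rw [← (finTwoArrowEquiv (Fin n)).symm.sum_comp, Fintype.sum_prod_type]
  rfl

theorem eq_two (c : Fin 2 → Fin n) : ∃ a b, c = ![a, b] :=
  ⟨c 0, c 1, by ext i; fin_cases i <;> rfl⟩

theorem upd_zero (a b u : Fin n) : Function.update ![a, b] 0 u = ![u, b] := by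
  ext i
  fin_cases i <;> rfl

theorem upd_one (a b u : Fin n) : Function.update ![a, b] 1 u = ![a, u] := by
  ext i
  fin_cases i <;> rfl

theorem turn_zero (K : Fin 2 → (Fin 2 → Fin n) → Fin n → ℝ) (g : (Fin 2 → Fin n) → ℝ)
    (a b : Fin n) : ∑ c, g c * turn K 0 c ![a, b] = ∑ u, g ![u, b] * K 0 ![u, b] a := by
  simp only [sum_turn, upd_zero, Matrix.cons_val_zero]

theorem turn_one (K : Fin 2 → (Fin 2 → Fin n) → Fin n → ℝ) (g : (Fin 2 → Fin n) → ℝ)
    (a b : Fin n) : ∑ c, g c * turn K 1 c ![a, b] = ∑ u, g ![a, u] * K 1 ![a, u] b := by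
  simp only [sum_turn, upd_one, Matrix.cons_val_one, Matrix.cons_val_zero]

theorem steps_two (K : Fin 2 → (Fin 2 → Fin n) → Fin n → ℝ) (ν : (Fin 2 → Fin n) → ℝ)
    (a b : Fin n) : steps ν K 2 ![a, b] =
      ∑ u, (∑ u', ν ![u', u] * K 0 ![u', u] a) * K 1 ![a, u] b := by
  change ∑ c, (∑ c', ν c' * turn K 0 c' c) * turn K 1 c ![a, b] = _
  simp only [turn_one K fun c => ∑ c', ν c' * turn K 0 c' c, turn_zero]

theorem inj_two {a b : Fin n} (h : a ≠ b) : Function.Injective ![a, b] := by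
  intro i j hij
  fin_cases i <;> fin_cases j <;> simp_all [eq_comm]

variable [NeZero n] (α β : Fin n → ℝ) (s : ℝ)

/-- The first walker stays with probability `s` and otherwise jumps relative to the second one;
the second walker stays if the first one did and otherwise jumps relative to the first one. -/
noncomputable def K2 (j : Fin 2) (c : Fin 2 → Fin n) (v : Fin n) : ℝ :=
  if j = 0 then s * (if v = c 0 then 1 else 0) + (1 - s) * α (v - c 1)
  else if s ≠ 0 ∧ β (c 1 - c 0) ≠ 0 then (if v = c 1 then 1 else 0) else β (v - c 0)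

variable {α β s}

omit [NeZero n] in
theorem K2_zero (a b v : Fin n) :
    K2 α β s 0 ![a, b] v = s * (if v = a then 1 else 0) + (1 - s) * α (v - b) := if_pos rfl

omit [NeZero n] in
theorem K2_one (a b v : Fin n) : K2 α β s 1 ![a, b] v =
    if s ≠ 0 ∧ β (b - a) ≠ 0 then (if v = b then 1 else 0) else β (v - a) :=
  if_neg (by decide)

theorem sum_shift {γ : Fin n → ℝ} (h : ∑ e, γ e = 1) (x : Fin n) : ∑ v, γ (v - x) = 1 :=
  ((Equiv.subRight x).sum_comp γ).trans h

theorem K2_key (hd : s ≠ 0 → ∀ e, α e ≠ 0 → β (-e) = 0) (x u a b : Fin n) (h : β (u - x) ≠ 0) :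
    K2 α β s 0 ![x, u] a * K2 α β s 1 ![a, u] b =
      s * (if a = x then 1 else 0) * (if b = u then 1 else 0) +
        (1 - s) * α (a - u) * β (b - a) := by
  rw [K2_zero, K2_one, add_mul]
  congr 1
  · by_cases hs : s = 0
    · simp [hs]
    · by_cases ha : a = x
      · rw [if_pos (show s ≠ 0 ∧ β (u - a) ≠ 0 from ⟨hs, ha ▸ h⟩)]
      · simp [ha]
  · by_cases h1 : α (a - u) = 0
    · simp [h1]
    · rw [if_neg fun h2 : s ≠ 0 ∧ β (u - a) ≠ 0 => h2.2 (neg_sub a u ▸ hd h2.1 _ h1)]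

theorem isMAC_two {w : ℝ} (h0 : 0 ≤ s) (h1 : s ≤ 1) (ha : ∀ e, 0 ≤ α e) (hb : ∀ e, 0 ≤ β e)
    (ha1 : ∑ e, α e = 1) (hb1 : ∑ e, β e = 1) (ha0 : α 0 = 0) (hb0 : β 0 = 0)
    (hd : s ≠ 0 → ∀ e, α e ≠ 0 → β (-e) = 0)
    (hc : ∀ x y, s * (if y = x then 1 else 0) + (1 - s) * ∑ u, β (u - x) * α (y - u) =
      walk n w x y) :
    IsMAC w (fun c : Fin 2 → Fin n => β (c 1 - c 0) / n) (K2 α β s) := by
  have hn : (n : ℝ) ≠ 0 := Nat.cast_ne_zero.2 (NeZero.ne n)
  have hne : ∀ a b : Fin n, β (b - a) ≠ 0 → a ≠ b := fun a b h hab => h (by rw [hab, sub_self, hb0])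
  refine ⟨fun c => div_nonneg (hb _) n.cast_nonneg, ?_, fun j c v => ?_, fun j c => ?_,
    avoid_of_inv _ _ (fun t c => c 0 ≠ c 1 ∧ (t % 2 = 0 → β (c 1 - c 0) ≠ 0)) (fun c hc => ?_)
      (fun t c v h hv => ?_) (fun t c h => ?_), Fin.forall_fin_two.2 ⟨?_, ?_⟩⟩
  · simp [sum_two, ← sum_div, sum_shift hb1, hn]
  · have h2 := ha (v - c 1)
    have h3 := hb (v - c 0)
    have h4 := sub_nonneg.2 h1
    unfold K2
    split_ifs <;> positivity
  · unfold K2
    split_ifs <;> simp [sum_add_distrib, ← mul_sum, sum_shift ha1, sum_shift hb1]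
  · have h2 : β (c 1 - c 0) ≠ 0 := fun h => hc (by simp [h])
    exact ⟨hne _ _ h2, fun _ => h2⟩
  · obtain ⟨a, b, rfl⟩ := eq_two c
    rcases Nat.mod_two_eq_zero_or_one t with ht | ht
    · rw [show Fin.ofNat 2 t = 0 from Fin.ext ht] at hv ⊢
      rw [upd_zero]
      refine ⟨fun hb : v = b => hv ?_, fun h => by omega⟩
      rw [K2_zero, hb, sub_self, ha0, if_neg (show ¬ b = a from Ne.symm h.1)]
      simp
    · rw [show Fin.ofNat 2 t = 1 from Fin.ext ht] at hv ⊢
      rw [upd_one]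
      have h2 : β (v - a) ≠ 0 := by
        rw [K2_one] at hv
        split_ifs at hv with h3 h4
        · exact h4 ▸ h3.2
        · exact absurd rfl hv
        · exact hv
      exact ⟨hne _ _ h2, fun _ => h2⟩
  · obtain ⟨a, b, rfl⟩ := eq_two c
    exact inj_two h.1
  · refine faithful_of_inv _ _ w 0 (fun x ν M => ∀ a b, ν ![a, b] =
      if a = x then M * β (b - x) else 0) (fun x a b => ?_) (fun x ν M y h a b => ?_)
      fun x ν M h => ?_
    · rw [sum_filter, sum_two]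
      by_cases h : a = x <;> simp [h, ← mul_sum, sum_shift hb1, div_eq_inv_mul]
    · simp only [Matrix.cons_val_zero, steps_two, h, ite_mul, zero_mul, sum_ite_eq', mem_univ,
        if_true]
      split_ifs with h2
      · subst h2
        have e : ∀ u, M * β (u - x) * K2 α β s 0 ![x, u] a * K2 α β s 1 ![a, u] b =
            (if b = u then M * (s * if a = x then 1 else 0) * β (b - a) else 0) +
              M * (1 - s) * β (b - a) * (β (u - x) * α (a - u)) := fun u => by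
          by_cases h3 : β (u - x) = 0
          · by_cases h4 : b = u <;> by_cases h5 : a = x <;> simp [h3, h4, h5]
          · rw [mul_assoc (M * _), K2_key hd _ _ _ _ h3]
            by_cases h4 : b = u <;> by_cases h5 : a = x <;> simp [h4, h5] <;> ring
        simp only [e, sum_add_distrib, sum_ite_eq, mem_univ, if_true, ← mul_sum, ← hc]
        ring
      · rfl
    · simp [sum_two, h, ← mul_sum, sum_shift hb1]
  · refine faithful_of_inv _ _ w 1 (fun y ν M => ∑ c, ν c = M ∧ ∀ a b, ν ![a, b] ≠ 0 →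
      b = y ∧ β (b - a) ≠ 0) (fun y => ⟨(sum_filter _ _).symm, fun a b h => ?_⟩)
      (fun y ν M z h => ?_) fun x ν M h => h.1
    · by_cases h2 : b = y
      · exact ⟨h2, fun h3 => h (by simp [h3])⟩
      · exact absurd (if_neg h2) h
    · have e1 : ∀ u u', u ≠ y → ν ![u', u] = 0 := fun u u' hu =>
        by_contra fun h2 => hu (h.2 _ _ h2).1
      have e2 : ∑ u', ν ![u', y] = M := by
        rw [← h.1, sum_two]
        exact sum_congr rfl fun u' _ =>
          (sum_eq_single y (fun u _ hu => e1 u u' hu) (by simp)).symm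
      have e : ∀ a b, steps ν (K2 α β s) 2 ![a, b] = s * ν ![a, y] * (if b = y then 1 else 0) +
          (1 - s) * M * (β (b - a) * α (a - y)) := fun a b => by
        have e3 : ∀ u', ν ![u', y] * K2 α β s 0 ![u', y] a * K2 α β s 1 ![a, y] b =
            (if a = u' then s * ν ![a, y] * (if b = y then 1 else 0) else 0) +
              (1 - s) * (β (b - a) * α (a - y)) * ν ![u', y] := fun u' => by
          by_cases h3 : ν ![u', y] = 0
          · by_cases h5 : a = u' <;> simp [h3, h5]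
          · rw [mul_assoc, K2_key hd _ _ _ _ (h.2 _ _ h3).2]
            by_cases h5 : a = u' <;> by_cases h6 : b = y <;> simp [h5, h6] <;> ring
        rw [steps_two, sum_eq_single y (fun u _ hu => by simp [e1 u _ hu]) (by simp), sum_mul]
        simp only [e3, sum_add_distrib, sum_ite_eq, mem_univ, if_true, ← mul_sum, e2]
        ring
      refine ⟨?_, fun a b h2 => ?_⟩
      · have e4 : ∑ a, β (z - a) * α (a - y) = ∑ u, β (u - y) * α (z - u) := by
          rw [← (Equiv.subLeft (z + y)).sum_comp]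
          refine sum_congr rfl fun u _ => ?_
          simp only [Equiv.subLeft_apply]
          congr 2 <;> abel
        simp only [sum_two, Matrix.cons_val_one, Matrix.cons_val_zero, sum_ite_eq', mem_univ,
          if_true, e, sum_add_distrib, ← mul_sum, ← sum_mul, e2, e4, ← hc]
        ring
      · by_cases h3 : b = z
        · refine ⟨h3, fun h4 => h2 ?_⟩
          have h5 : ν ![a, y] * (if b = y then 1 else 0) = 0 := by
            split_ifs with h6
            · rw [mul_one]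
              by_contra h7
              exact (h.2 _ _ h7).2 (h6 ▸ h4)
            · exact mul_zero _
          simp only [e, h4, mul_assoc, h5, mul_zero, zero_mul, add_zero, ite_self]
        · exact absurd (if_neg h3) h2

omit [NeZero n] in
theorem exists_odd (m : ℕ) {w : ℝ} (hw : 0 ≤ w) :
    ∃ (μ : (Fin 2 → Fin (2 * m + 4 + 1)) → ℝ)
      (K : Fin 2 → (Fin 2 → Fin (2 * m + 4 + 1)) → Fin (2 * m + 4 + 1) → ℝ), IsMAC w μ K := by
  let γ : Fin (2 * m + 4 + 1) → ℝ := fun d => if (d : ℕ) % 2 = 1 then 1 else 0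
  let a : Fin (2 * m + 4 + 1) := ⟨2, by omega⟩
  have hm : (0 : ℝ) < m + 2 := by positivity
  have hw' : (0 : ℝ) < w + (2 * m + 4) := by positivity
  have h1 : ∀ d, γ d + γ (d - 1) = if d = 0 then 0 else 1 := fun d => by
    by_cases h : d = 0
    · simp [h, γ, Fin.coe_neg_one, Nat.add_mod]
    · have h2 : (d : ℕ) ≠ 0 := fun h' => h (Fin.ext h')
      simp only [γ, Fin.val_sub_one_of_ne_zero h, h, if_false]
      split_ifs <;> first | omega | norm_num
  have h2 : ∑ d, γ d = m + 2 := by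
    have h3 := sum_congr (rfl : univ = univ) fun d _ => h1 d
    rw [sum_add_distrib, show ∑ d, γ (d - 1) = ∑ d, γ d from
      Equiv.sum_comp (Equiv.subRight 1) γ] at h3
    simp only [sum_ite, sum_const_zero, filter_ne', card_erase_of_mem (mem_univ _),
      sum_const, card_univ, Fintype.card_fin, zero_add, nsmul_eq_mul, mul_one] at h3
    push_cast at h3
    linarith
  have h4 : a ≠ 0 := by simp [a]
  have h5 : a + 1 ≠ 0 := fun h => by
    have := h1 0
    have h6 : a = 0 - 1 := eq_sub_of_add_eq h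
    have h7 := congrArg Fin.val h6
    simp [a, Fin.coe_neg_one] at h7
  refine ⟨_, _, isMAC_two (s := w / (w + (2 * m + 4)))
    (α := fun e => (if e = a then 1 / 2 else 0) + if e = a + 1 then 1 / 2 else 0)
    (β := fun d => γ (d + a) / (m + 2)) (by positivity) (div_le_one_of_le₀ (by linarith) hw'.le)
    (fun e => by positivity) (fun e => by simp only [γ]; positivity)
    (by simp [sum_add_distrib]; norm_num) ?_ (by simp [h4.symm, h5.symm]) (by simp [γ, a])
    (fun _ e he => ?_) fun x y => ?_⟩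
  · rw [← sum_div, show ∑ d, γ (d + a) = ∑ d, γ d from Equiv.sum_comp (Equiv.addRight a) γ, h2,
      div_self hm.ne']
  · by_cases h6 : e = a
    · simp [h6, γ]
    · by_cases h7 : e = a + 1
      · simp [h7, γ, Fin.coe_neg_one, Nat.add_mod]
      · simp [h6, h7] at he
  · have e1 : ∀ u b, y - u = b ↔ u = y - b := fun u b => by
      rw [sub_eq_iff_eq_add', eq_sub_iff_add_eq, eq_comm]
    have e2 := h1 (y - x)
    simp only [e1, mul_add, sum_add_distrib, mul_ite, mul_zero, sum_ite_eq', mem_univ, if_true,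
      walk, show y - a - x + a = y - x by abel, show y - (a + 1) - x + a = y - x - 1 by abel]
    rw [eq_sub_of_add_eq e2]
    simp only [sub_eq_zero]
    push_cast
    rw [show w + (2 * (m : ℝ) + 4 + 1) - 1 = w + (2 * m + 4) by ring]
    split_ifs <;> field_simp <;> ring

omit [NeZero n] in
theorem exists_three {w : ℝ} (hw : 2 ≤ w) :
    ∃ (μ : (Fin 2 → Fin 3) → ℝ) (K : Fin 2 → (Fin 2 → Fin 3) → Fin 3 → ℝ), IsMAC w μ K := by
  obtain ⟨r, h0, h1, hr⟩ : ∃ r : ℝ, 0 ≤ r ∧ r ≤ 1 ∧ r * (1 - r) * (w + 2) = 1 := by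
    have h1 : 0 ≤ (w - 2) / (w + 2) := div_nonneg (by linarith) (by linarith)
    have h2 : (w - 2) / (w + 2) ≤ 1 := div_le_one_of_le₀ (by linarith) (by linarith)
    have h3 := Real.mul_self_sqrt h1
    have h4 := Real.sqrt_le_one.2 h2
    have h5 := Real.sqrt_nonneg ((w - 2) / (w + 2))
    have h6 : (w - 2) / (w + 2) * (w + 2) = w - 2 := div_mul_cancel₀ _ (by linarith)
    exact ⟨(1 + √((w - 2) / (w + 2))) / 2, by linarith, by linarith, by
      linear_combination (-(w + 2) / 4) * h3 - h6 / 4⟩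
  have h2 := sub_nonneg.2 h1
  refine ⟨_, _, isMAC_two (s := 0) (α := ![0, 1 - r, r]) (β := ![0, r, 1 - r]) le_rfl zero_le_one
    (fun e => by fin_cases e <;> simp [h0, h1]) (fun e => by fin_cases e <;> simp [h0, h1])
    (by simp [Fin.sum_univ_three]) (by simp [Fin.sum_univ_three]) rfl rfl (fun h => absurd rfl h)
    fun x y => ?_⟩
  rw [walk, eq_div_iff (by push_cast; linarith)]
  fin_cases x <;> fin_cases y <;> simp [Fin.sum_univ_three] <;>
    first | linear_combination hr | linear_combination -2 * hr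

end Pool.Agent.MP_1dd261_pr

end

section

/-! Two walkers on at most three vertices: necessary conditions. -/

namespace Pool.Agent.MP_1dd261_pr

open Finset
open scoped Classical

variable {n k : ℕ} {w : ℝ}

theorem cyl_inj [NeZero k] {μ : (Fin k → Fin n) → ℝ} {K : Fin k → (Fin k → Fin n) → Fin n → ℝ}
    (h : IsMAC w μ K) (A : ℕ → (Fin k → Fin n) → Prop) (T : ℕ) (c : Fin k → Fin n)
    (hc : cyl μ K A T c ≠ 0) : Function.Injective c := by
  rw [← sum_path] at hc
  obtain ⟨γ, -, hγ⟩ := exists_ne_zero_of_sum_ne_zero hc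
  split_ifs at hγ with h1
  · exact h1.2 ▸ h.avoid T γ hγ _
  · exact absurd rfl hγ

theorem exists_start [NeZero k] {μ : (Fin k → Fin n) → ℝ}
    {K : Fin k → (Fin k → Fin n) → Fin n → ℝ} (h : IsMAC w μ K) (i : Fin k) :
    ∃ x, ∑ c with c i = x, μ c ≠ 0 := by
  by_contra h1
  push Not at h1
  have h2 := sum_fiberwise univ (fun c : Fin k → Fin n => c i) μ
  simp [h1, h.init_sum] at h2

/-- The laws along a prescribed trajectory of one of two walkers. -/
theorem exists_laws {μ : (Fin 2 → Fin n) → ℝ} {K : Fin 2 → (Fin 2 → Fin n) → Fin n → ℝ}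
    (h : IsMAC w μ K) (i : Fin 2) (x : ℕ → Fin n) :
    ∃ ν ρ : ℕ → Fin n → Fin n → ℝ, (∀ T a, ν T a a = 0) ∧ (∀ T a, ρ T a a = 0) ∧
      (∀ T a b, ![a, b] i ≠ x T → ν T a b = 0) ∧
      (∀ T a u, ρ T a u = ∑ u', ν T u' u * K 0 ![u', u] a) ∧
      (∀ T a b, ![a, b] i = x (T + 1) → ν (T + 1) a b = ∑ u, ρ T a u * K 1 ![a, u] b) ∧
      ∀ T, ∑ a, ∑ b, ν T a b =
        (∑ c with c i = x 0, μ c) * ∏ s ∈ range T, walk n w (x s) (x (s + 1)) := by
  have hn : ∀ a : Fin n, ¬ Function.Injective ![a, a] := fun a ha =>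
    absurd (ha (show ![a, a] 0 = ![a, a] 1 from rfl)) (by decide)
  have e : ∀ T a u, cyl μ K (fun t c => ∀ s, t = 2 * s → c i = x s) (2 * T + 1) ![a, u] =
      ∑ u', cyl μ K (fun t c => ∀ s, t = 2 * s → c i = x s) (2 * T) ![u', u] *
        K 0 ![u', u] a := fun T a u => by
    rw [cyl_round μ K i x T 1 one_lt_two, ← turn_zero]
    rfl
  refine ⟨fun T a b => cyl μ K (fun t c => ∀ s, t = 2 * s → c i = x s) (2 * T) ![a, b],
    fun T a b => cyl μ K (fun t c => ∀ s, t = 2 * s → c i = x s) (2 * T + 1) ![a, b],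
    fun T a => by_contra fun h1 => hn a (cyl_inj h _ _ _ h1),
    fun T a => by_contra fun h1 => hn a (cyl_inj h _ _ _ h1), fun T a b h1 => ?_, e,
    fun T a b h1 => ?_, fun T => ?_⟩
  · rcases T with _ | T
    · exact if_neg fun h2 => h1 (h2 0 rfl)
    · simp only [cyl_succ, if_neg h1]
  · simp only [cyl_succ, if_pos h1, steps_two, e]
  · rw [← sum_two, ← sum_path', ← h.faithful]

theorem not_two {μ : (Fin 2 → Fin n) → ℝ} {K : Fin 2 → (Fin 2 → Fin n) → Fin n → ℝ}
    (hw : 0 ≤ w) (h : IsMAC w μ K) : 3 ≤ n := by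
  obtain ⟨x, hx⟩ := exists_start h 0
  obtain ⟨c, -, hc⟩ := exists_ne_zero_of_sum_ne_zero hx
  have h1 : 2 ≤ n := by simpa using Fintype.card_le_of_injective c (cyl_inj h (fun _ _ => True) 0 c
    (by simpa [cyl] using hc))
  by_contra h2
  obtain rfl : n = 2 := by omega
  obtain ⟨y, hy, hy'⟩ := (by decide : ∀ x : Fin 2, ∃ y, y ≠ x ∧ ∀ u, u = x ∨ u = y) x
  obtain ⟨ν, ρ, f1, f2, f3, f4, f5, f6⟩ := exists_laws h 0 fun s => if s = 0 then x else y
  have h3 : ∀ u, ρ 0 y u = 0 := fun u => by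
    rcases hy' u with rfl | rfl
    · rw [f4]
      refine sum_eq_zero fun a _ => mul_eq_zero_of_left ?_ _
      rcases hy' a with rfl | rfl
      · exact f1 _ _
      · exact f3 _ _ _ hy
    · exact f2 _ _
  have h4 := f6 1
  rw [sum_eq_zero fun a _ => sum_eq_zero fun b _ => ?_] at h4
  · have h5 : w + 2 - 1 ≠ 0 := by linarith
    simp [hx, walk, hy, h5] at h4
  · rcases hy' a with rfl | rfl
    · exact f3 _ _ _ hy.symm
    · simp [f5 0 a b rfl, h3]

theorem nec_three {μ : (Fin 2 → Fin 3) → ℝ} {K : Fin 2 → (Fin 2 → Fin 3) → Fin 3 → ℝ}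
    (hw : 0 ≤ w) (h : IsMAC w μ K) : 2 ≤ w := by
  have hp : ∀ x y : Fin 3, y ≠ x → walk 3 w x y = 1 / (w + 2) := fun x y hy => by
    rw [walk, if_neg hy]
    push_cast
    ring
  have hp0 : 0 < 1 / (w + 2) := by positivity
  have hu : ∀ x : Fin 3, ∃ u, u ≠ x ∧ 0 ≠ u := by decide
  have hA : K 0 ![1, 2] 0 * K 1 ![1, 2] 2 = 1 / (w + 2) := by
    obtain ⟨x, hx⟩ := exists_start h 0
    obtain ⟨u, h1, h2⟩ := hu x
    obtain ⟨ν, ρ, f1, f2, f3, f4, f5, f6⟩ := exists_laws h 0 fun s => [x, u, 0, 1].getD s 0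
    have g3 := f6 3
    have g4 := f6 4
    have a1 : ∀ b, ν 2 1 b = 0 := fun b => f3 2 1 b (show (1 : Fin 3) ≠ 0 by decide)
    have a2 : ∀ b, ν 2 2 b = 0 := fun b => f3 2 2 b (show (2 : Fin 3) ≠ 0 by decide)
    have a3 : ∀ b, ν 3 0 b = 0 := fun b => f3 3 0 b (show (0 : Fin 3) ≠ 1 by decide)
    have a4 : ∀ b, ν 3 2 b = 0 := fun b => f3 3 2 b (show (2 : Fin 3) ≠ 1 by decide)
    have a5 : ∀ b, ν 4 1 b = 0 := fun b => f3 4 1 b (show (1 : Fin 3) ≠ 0 by decide)
    have a6 : ∀ b, ν 4 2 b = 0 := fun b => f3 4 2 b (show (2 : Fin 3) ≠ 0 by decide)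
    have b1 : ρ 2 1 0 = 0 := by simp [f4, Fin.sum_univ_three, f1, a1, a2]
    have b2 : ∀ b, ν 3 1 b = ρ 2 1 2 * K 1 ![1, 2] b := fun b => by
      simp [f5 2 1 b rfl, Fin.sum_univ_three, b1, f2]
    have b3 : ρ 3 0 1 = 0 := by simp [f4, Fin.sum_univ_three, f1, a3, a4]
    have b4 : ∀ b, ν 4 0 b = ρ 3 0 2 * K 1 ![0, 2] b := fun b => by
      simp [f5 3 0 b rfl, Fin.sum_univ_three, b3, f2]
    have b5 : ρ 3 0 2 = ρ 2 1 2 * K 1 ![1, 2] 2 * K 0 ![1, 2] 0 := by
      simp [f4 3, Fin.sum_univ_three, a3, a4, b2]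
    rw [Fin.sum_univ_three] at g3 g4
    rw [prod_range_succ, ← mul_assoc, ← g3] at g4
    simp only [a3, a4, a5, a6, b2, b4, b5, sum_const_zero, ← mul_sum, h.step_sum, add_zero,
      zero_add, mul_one] at g3 g4
    have c1 : ρ 2 1 2 ≠ 0 := by
      rw [g3]
      simp [prod_range_succ, hp _ _ h1, hp _ _ h2, hp 0 1 (by decide), hx,
        show w + 2 ≠ 0 by linarith]
    rw [mul_assoc, mul_right_inj' c1, mul_comm] at g4
    exact g4.trans (hp 1 0 (by decide))
  have hB : K 0 ![1, 2] 1 * K 1 ![1, 2] 0 = 1 / (w + 2) := by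
    obtain ⟨x, hx⟩ := exists_start h 1
    obtain ⟨u, h1, h2⟩ := hu x
    obtain ⟨ν, ρ, f1, f2, f3, f4, f5, f6⟩ := exists_laws h 1 fun s => [x, u, 0, 2].getD s 0
    have g3 := f6 3
    have g4 := f6 4
    have a1 : ∀ a, ν 2 a 1 = 0 := fun a => f3 2 a 1 (show (1 : Fin 3) ≠ 0 by decide)
    have a2 : ∀ a, ν 2 a 2 = 0 := fun a => f3 2 a 2 (show (2 : Fin 3) ≠ 0 by decide)
    have a3 : ∀ a, ν 3 a 0 = 0 := fun a => f3 3 a 0 (show (0 : Fin 3) ≠ 2 by decide)
    have a4 : ∀ a, ν 3 a 1 = 0 := fun a => f3 3 a 1 (show (1 : Fin 3) ≠ 2 by decide)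
    have a5 : ∀ a, ν 4 a 1 = 0 := fun a => f3 4 a 1 (show (1 : Fin 3) ≠ 0 by decide)
    have a6 : ∀ a, ν 4 a 2 = 0 := fun a => f3 4 a 2 (show (2 : Fin 3) ≠ 0 by decide)
    have b1 : ∀ a, ρ 2 a 1 = 0 := fun a => by simp [f4, a1]
    have b2 : ∀ a, ρ 2 a 2 = 0 := fun a => by simp [f4, a2]
    have b3 : ν 3 0 2 = 0 := by simp [f5 2 0 2 rfl, Fin.sum_univ_three, b1, b2, f2]
    have b4 : ∀ a, ρ 3 a 0 = 0 := fun a => by simp [f4, a3]
    have b5 : ∀ a, ρ 3 a 1 = 0 := fun a => by simp [f4, a4]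
    have b6 : ν 4 2 0 = 0 := by simp [f5 3 2 0 rfl, Fin.sum_univ_three, b4, b5, f2]
    have b7 : ν 4 1 0 = ν 3 1 2 * (K 0 ![1, 2] 1 * K 1 ![1, 2] 0) := by
      simp [f5 3 1 0 rfl, Fin.sum_univ_three, b4, b5, f4 3 1 2, b3, f1, mul_assoc]
    rw [prod_range_succ, ← mul_assoc, ← g3] at g4
    simp only [Fin.sum_univ_three, a3, a4, a5, a6, b3, b6, b7, f1, add_zero, zero_add] at g3 g4
    have c1 : ν 3 1 2 ≠ 0 := by
      rw [g3]
      simp [prod_range_succ, hp _ _ h1, hp _ _ h2, hp 0 2 (by decide), hx,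
        show w + 2 ≠ 0 by linarith]
    rw [mul_right_inj' c1] at g4
    exact g4.trans (hp 2 0 (by decide))
  have s0 := h.step_sum 0 ![1, 2]
  have s1 := h.step_sum 1 ![1, 2]
  rw [Fin.sum_univ_three] at s0 s1
  have n0 := h.step_nonneg 0 ![1, 2]
  have n1 := h.step_nonneg 1 ![1, 2]
  have d0 : K 0 ![1, 2] 0 * K 0 ![1, 2] 1 ≤ 1 / 4 := by
    nlinarith [n0 0, n0 1, n0 2, sq_nonneg (K 0 ![1, 2] 0 - K 0 ![1, 2] 1)]
  have d1 : K 1 ![1, 2] 2 * K 1 ![1, 2] 0 ≤ 1 / 4 := by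
    nlinarith [n1 0, n1 1, n1 2, sq_nonneg (K 1 ![1, 2] 0 - K 1 ![1, 2] 2)]
  have d2 := mul_le_mul d0 d1 (mul_nonneg (n1 2) (n1 0)) (by norm_num)
  rw [mul_mul_mul_comm, hA, hB] at d2
  have d3 := (mul_self_le_mul_self_iff hp0.le (by norm_num)).2 d2
  rw [div_le_div_iff₀ (by linarith) (by norm_num)] at d3
  linarith

end Pool.Agent.MP_1dd261_pr

end
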